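import Pool.Agent.R4.Thick.Tri2
import Pool.Agent.R4.Thick.Bound

/-!
# MP_eeeb33_co, Question 1: `n(t) = 12 t` for every `t ≥ 1`

The smallest number of vertices of a `(6 t - 1)`-regular graph of thickness `t` is `12 t`.

Construction.  The vertices are the pairs (colour, position), 12 colours and `t` positions in the
cyclic group `Z_t`.  A triangulation `T` of the sphere on these `12 t` vertices is obtained from the
icosahedron (whose 12 vertices have position 0 and pairwise different colours) by replacing six
disjoint edges `h h'` by paths of `2 t - 2` vertices of degree four which are joined to `h` and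
`h'`; the paths are rainbow paths consisting of three zigzags.  The `t` translates of `T` by `Z_t`
have pairwise disjoint edge sets, and every vertex has degree sum `6 t - 1` in them.
-/

set_option autoImplicit false

namespace Pool.Agent.Results.MP_eeeb33_co.SmallestOrder

open Pool.Agent.H671R2.OOF (IsPlanar)
open Pool.Agent.R4.Thick

/-- The edge set of `G` can be partitioned into `k` sets (empty sets are allowed) each of which is
the edge set of a planar graph `H i` on the vertices of `G`. -/
def PlanarPartition {V : Type} (G : SimpleGraph V) (k : ℕ) : Prop :=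
  ∃ H : Fin k → SimpleGraph V, (∀ i, IsPlanar (H i)) ∧
    (∀ u v, G.Adj u v ↔ ∃ i, (H i).Adj u v) ∧
    ∀ i j, i ≠ j → ∀ u v, (H i).Adj u v → ¬ (H j).Adj u v

/-- The thickness of `G`: the least number of planar graphs into which its edge set can be
partitioned. -/
noncomputable def thickness {V : Type} (G : SimpleGraph V) : ℕ := sInf {k | PlanarPartition G k}

theorem edges_le {V : Type} [Fintype V] (G : SimpleGraph V) (k : ℕ) (h : PlanarPartition G k)
    (hn : 3 ≤ Fintype.card V) : Nat.card G.edgeSet + 6 * k ≤ 3 * k * Fintype.card V := by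
  classical
  obtain ⟨H, hp, hG, _⟩ := h
  have h1 : ∀ i, (H i).edgeFinset.card + 6 ≤ 3 * Fintype.card V := by
    intro i
    have := edge_bound (H i) (hp i) (by rw [Nat.card_eq_fintype_card]; exact hn)
    rw [Nat.card_eq_fintype_card, Nat.card_eq_fintype_card, ← SimpleGraph.edgeFinset_card] at this
    exact this
  have h2 : G.edgeFinset ⊆ Finset.univ.biUnion (fun i => (H i).edgeFinset) := by
    intro x hx
    rw [Finset.mem_biUnion]
    induction x using Sym2.ind with
    | _ u v =>
      rw [SimpleGraph.mem_edgeFinset, SimpleGraph.mem_edgeSet] at hx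
      obtain ⟨i, hi⟩ := (hG u v).1 hx
      exact ⟨i, Finset.mem_univ _, by rw [SimpleGraph.mem_edgeFinset, SimpleGraph.mem_edgeSet]; exact hi⟩
  have h3 : G.edgeFinset.card ≤ ∑ i : Fin k, (H i).edgeFinset.card :=
    (Finset.card_le_card h2).trans Finset.card_biUnion_le
  have h4 : ∑ i : Fin k, ((H i).edgeFinset.card + 6) ≤ ∑ _i : Fin k, 3 * Fintype.card V :=
    Finset.sum_le_sum fun i _ => h1 i
  rw [Finset.sum_add_distrib, Finset.sum_const, Finset.sum_const, Finset.card_univ,
    Fintype.card_fin, smul_eq_mul, smul_eq_mul] at h4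
  rw [Nat.card_eq_fintype_card, ← SimpleGraph.edgeFinset_card]
  nlinarith

theorem edges_reg {V : Type} [Fintype V] (G : SimpleGraph V) (r : ℕ)
    (h : ∀ v, (G.neighborSet v).ncard = r) : Fintype.card V * r = 2 * Nat.card G.edgeSet := by
  classical
  have h1 := G.sum_degrees_eq_twice_card_edges
  have h2 : ∀ v, G.degree v = r := by
    intro v
    rw [← h v, Set.ncard_eq_toFinset_card', Set.toFinset_card, SimpleGraph.card_neighborSet_eq_degree]
  simp only [h2, Finset.sum_const, Finset.card_univ, smul_eq_mul] at h1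
  rw [Nat.card_eq_fintype_card, ← SimpleGraph.edgeFinset_card]
  exact h1

/-- the union of the translates -/
def GG (t : ℕ) (ht : 1 ≤ t) {W : Type} (e : Vt t ≃ W) : SimpleGraph W :=
  ⨆ g : ZMod t, (tri t ht e g).graph

theorem GG_adj (t : ℕ) (ht : 1 ≤ t) {W : Type} (e : Vt t ≃ W) (u v : W) :
    (GG t ht e).Adj u v ↔ ∃ g : ZMod t, (tri t ht e g).graph.Adj u v := by
  unfold GG
  rw [SimpleGraph.iSup_adj]

theorem tri_adj (t : ℕ) (ht : 1 ≤ t) {W : Type} (e : Vt t ≃ W) (g : ZMod t) (u v : W) :
    (tri t ht e g).graph.Adj u v ↔ ∃ d : Dt t, e (tc t d, ((tp t d : ℕ) : ZMod t) + g) = u ∧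
      e (hc t d, ((hp t d : ℕ) : ZMod t) + g) = v := by
  constructor
  · rintro ⟨d, h1, h2⟩
    refine ⟨d, h1, ?_⟩
    rw [← h2]
    show _ = e (tc t (ph t ht d), ((tp t (ph t ht d) : ℕ) : ZMod t) + g)
    rw [(ph_ends t ht d).1, (ph_ends t ht d).2]
  · rintro ⟨d, h1, h2⟩
    refine ⟨d, h1, ?_⟩
    show e (tc t (ph t ht d), ((tp t (ph t ht d) : ℕ) : ZMod t) + g) = v
    rw [(ph_ends t ht d).1, (ph_ends t ht d).2]
    exact h2

theorem tri_disj (t : ℕ) (ht : 1 ≤ t) {W : Type} (e : Vt t ≃ W) (g g' : ZMod t) (u v : W)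
    (h : (tri t ht e g).graph.Adj u v) (h' : (tri t ht e g').graph.Adj u v) : g = g' := by
  obtain ⟨d, h1, h2⟩ := (tri_adj t ht e g u v).1 h
  obtain ⟨d', h1', h2'⟩ := (tri_adj t ht e g' u v).1 h'
  have e1 := e.injective (h1.trans h1'.symm)
  have e2 := e.injective (h2.trans h2'.symm)
  simp only [Prod.mk.injEq] at e1 e2
  have hd : d = d' := by
    refine key_inj t ht d d' e1.1 e2.1 ?_
    push_cast
    linear_combination e2.2 - e1.2
  subst hd
  exact add_left_cancel e1.2

theorem GG_nbr (t : ℕ) (ht : 1 ≤ t) {W : Type} (e : Vt t ≃ W) (w : W) :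
    ((GG t ht e).neighborSet w).ncard = 6 * t - 1 := by
  classical
  obtain ⟨⟨c, x⟩, rfl⟩ := e.surjective w
  let Ψ : Dt t → W := fun d =>
    e (hc t d, ((hp t d : ℕ) : ZMod t) + (x - ((tp t d : ℕ) : ZMod t)))
  have h1 : (GG t ht e).neighborSet (e (c, x)) =
      ((Finset.univ.filter (fun d : Dt t => tc t d = c)).image Ψ : Finset W) := by
    ext v
    rw [SimpleGraph.mem_neighborSet, GG_adj, Finset.mem_coe, Finset.mem_image]
    constructor
    · rintro ⟨g, hg⟩
      obtain ⟨d, h1, h2⟩ := (tri_adj t ht e g _ v).1 hg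
      have e1 := e.injective h1
      simp only [Prod.mk.injEq] at e1
      refine ⟨d, by rw [Finset.mem_filter]; exact ⟨Finset.mem_univ _, e1.1⟩, ?_⟩
      rw [← h2]
      show e (hc t d, ((hp t d : ℕ) : ZMod t) + (x - ((tp t d : ℕ) : ZMod t))) = _
      rw [← e1.2]
      congr 2
      ring
    · rintro ⟨d, hd, hv⟩
      rw [Finset.mem_filter] at hd
      refine ⟨x - ((tp t d : ℕ) : ZMod t), (tri_adj t ht e _ _ v).2 ⟨d, ?_, hv⟩⟩
      rw [hd.2]
      congr 2
      ring
  rw [h1, Set.ncard_coe_finset, Finset.card_image_of_injOn, card_color t ht c]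
  intro d hd d' hd' hdd
  rw [Finset.mem_coe, Finset.mem_filter] at hd hd'
  have e1 := e.injective hdd
  simp only [Prod.mk.injEq] at e1
  refine key_inj t ht d d' (hd.2.trans hd'.2.symm) e1.1 ?_
  push_cast
  linear_combination e1.2

/-- **Question 1**: `n(t) = 12 t`.  For every `t ≥ 1` the smallest number of vertices of a
`(6 t - 1)`-regular graph of thickness `t` is `12 t`. -/
theorem result (t : ℕ) (ht : 1 ≤ t) :
    IsLeast {n : ℕ | ∃ G : SimpleGraph (Fin n),
      (∀ v, (G.neighborSet v).ncard = 6 * t - 1) ∧ thickness G = t} (12 * t) := by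
  classical
  constructor
  · have : NeZero t := ⟨by omega⟩
    have hc : Fintype.card (Vt t) = 12 * t := by
      simp [Fintype.card_prod, ZMod.card]
    let e : Vt t ≃ Fin (12 * t) := Fintype.equivFinOfCardEq hc
    let z : ZMod t ≃ Fin t := Fintype.equivFinOfCardEq (ZMod.card t)
    have hreg := GG_nbr t ht e
    refine ⟨GG t ht e, hreg, ?_⟩
    have hpp : PlanarPartition (GG t ht e) t := by
      refine ⟨fun i => (tri t ht e (z.symm i)).graph, fun i => tri_planar t ht e _, ?_, ?_⟩
      · intro u v
        rw [GG_adj]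
        constructor
        · rintro ⟨g, hg⟩
          refine ⟨z g, ?_⟩
          have hz : z.symm (z g) = g := z.symm_apply_apply g
          show (tri t ht e (z.symm (z g))).graph.Adj u v
          rw [hz]
          exact hg
        · rintro ⟨i, hi⟩
          exact ⟨_, hi⟩
      · intro i j hij u v h1 h2
        exact hij (z.symm.injective (tri_disj t ht e _ _ u v h1 h2))
    have hmem : PlanarPartition (GG t ht e) (thickness (GG t ht e)) :=
      Nat.sInf_mem (s := {k | PlanarPartition (GG t ht e) k}) ⟨t, hpp⟩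
    apply le_antisymm
    · exact Nat.sInf_le hpp
    · have h1 := edges_le _ _ hmem (by rw [Fintype.card_fin]; omega)
      have h2 := edges_reg _ _ hreg
      rw [Fintype.card_fin] at h1 h2
      set k := thickness (GG t ht e) with hk
      by_contra hlt
      push Not at hlt
      obtain ⟨r, rfl⟩ : ∃ r, t = r + 1 := ⟨t - 1, by omega⟩
      have h3 : 6 * (r + 1) - 1 = 6 * r + 5 := by omega
      rw [h3] at h2
      have h4 : k ≤ r := by omega
      nlinarith
  · rintro n ⟨G, hreg, hth⟩
    have hne : {k | PlanarPartition G k}.Nonempty := by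
      by_contra h
      rw [Set.not_nonempty_iff_eq_empty] at h
      have : thickness G = 0 := by unfold thickness; rw [h]; exact Nat.sInf_empty
      omega
    have hmem : PlanarPartition G t := by
      have := Nat.sInf_mem hne
      have h2 : sInf {k | PlanarPartition G k} = t := hth
      rw [h2] at this
      exact this
    have hn : 3 ≤ n := by
      rcases Nat.eq_zero_or_pos n with h0 | h0
      · subst h0
        have h1 : PlanarPartition G 0 :=
          ⟨fun i => i.elim0, fun i => i.elim0, fun u => u.elim0, fun i => i.elim0⟩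
        have h2 : thickness G ≤ 0 := Nat.sInf_le h1
        omega
      · have h1 := hreg ⟨0, h0⟩
        have h2 : (G.neighborSet ⟨0, h0⟩).ncard ≤ n := by
          refine (Set.ncard_le_ncard (Set.subset_univ _) (Set.toFinite _)).trans ?_
          rw [Set.ncard_univ, Nat.card_eq_fintype_card, Fintype.card_fin]
        omega
    have h1 := edges_le _ _ hmem (by rw [Fintype.card_fin]; exact hn)
    have h2 := edges_reg _ _ hreg
    rw [Fintype.card_fin] at h1 h2
    obtain ⟨r, rfl⟩ : ∃ r, t = r + 1 := ⟨t - 1, by omega⟩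
    have h3 : 6 * (r + 1) - 1 = 6 * r + 5 := by omega
    rw [h3] at h2
    nlinarith

end Pool.Agent.Results.MP_eeeb33_co.SmallestOrder
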